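import Mathlib

/-!
# Eigenclasses in exterior powers which are products of classes of degree two
-/

set_option autoImplicit false

namespace Pool.Agent.TateTwo

open ExteriorAlgebra

variable {K : Type*} [Field K] {W : Type*} [AddCommGroup W] [Module K W]

/-- The elements of `∧² W` on which the linear map induced by `F` is the multiplication by `q`. -/
def tateTwo (F : W →ₗ[K] W) (q : K) : Submodule K (ExteriorAlgebra K W) where
  carrier := {x | x ∈ ⋀[K]^2 W ∧ ExteriorAlgebra.map F x = q • x}
  add_mem' := by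
    rintro x y ⟨h1, h2⟩ ⟨h3, h4⟩
    exact ⟨Submodule.add_mem _ h1 h3, by rw [map_add, h2, h4, smul_add]⟩
  zero_mem' := ⟨Submodule.zero_mem _, by rw [map_zero, smul_zero]⟩
  smul_mem' := by
    rintro c x ⟨h1, h2⟩
    exact ⟨Submodule.smul_mem _ _ h1, by rw [map_smul, h2, smul_comm]⟩

theorem mem_tateTwo {F : W →ₗ[K] W} {q : K} {x : ExteriorAlgebra K W} :
    x ∈ tateTwo F q ↔ x ∈ ⋀[K]^2 W ∧ ExteriorAlgebra.map F x = q • x := Iff.rfl

/-- The product of the vectors in a list of pairs (scalar, vector). -/
def mono (L : List (K × W)) : ExteriorAlgebra K W := (L.map fun a => ι K a.2).prod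

theorem mono_nil : mono ([] : List (K × W)) = 1 := rfl

theorem mono_cons (a : K × W) (L : List (K × W)) : mono (a :: L) = ι K a.2 * mono L := by
  simp [mono]

theorem mono_perm {L L' : List (K × W)} (h : L.Perm L') : mono L = mono L' ∨ mono L = -mono L' := by
  induction h with
  | nil => exact Or.inl rfl
  | cons a _ ih =>
    rw [mono_cons, mono_cons]
    rcases ih with h | h
    · exact Or.inl (by rw [h])
    · exact Or.inr (by rw [h, mul_neg])
  | swap a b L =>
    right
    rw [mono_cons, mono_cons, mono_cons, mono_cons, ← mul_assoc, ← mul_assoc, ← neg_mul]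
    congr 1
    have h1 := ExteriorAlgebra.ι_add_mul_swap (R := K) a.2 b.2
    exact eq_neg_of_add_eq_zero_right h1
  | trans _ _ ih₁ ih₂ =>
    rcases ih₁ with h | h <;> rcases ih₂ with h' | h'
    · exact Or.inl (by rw [h, h'])
    · exact Or.inr (by rw [h, h'])
    · exact Or.inr (by rw [h, h'])
    · exact Or.inl (by rw [h, h', neg_neg])

theorem map_mono {F : W →ₗ[K] W} {L : List (K × W)} (hL : ∀ a ∈ L, F a.2 = a.1 • a.2) :
    ExteriorAlgebra.map F (mono L) = (L.map Prod.fst).prod • mono L := by
  induction L with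
  | nil => simp [mono_nil]
  | cons a L ih =>
    rw [mono_cons, map_mul, ExteriorAlgebra.map_apply_ι, hL a List.mem_cons_self,
      ih (fun b hb => hL b (List.mem_cons_of_mem _ hb)), List.map_cons, List.prod_cons, map_smul,
      smul_mul_smul_comm]

open Classical in
theorem mono_mem {F : W →ₗ[K] W} {q : K} (i : ℕ) : ∀ L : List (K × W), L.length = 2 * i →
    (∀ a ∈ L, F a.2 = a.1 • a.2) → (∀ a ∈ L, a.1 ≠ 0 ∧ q / a.1 ≠ a.1) → q ≠ 0 →
    (∀ a ∈ L, (L.map Prod.fst).count (q / a.1) = (L.map Prod.fst).count a.1) →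
    mono L ∈ tateTwo F q ^ i := by
  induction i with
  | zero =>
    intro L hL _ _ _ _
    have h1 : L = [] := List.length_eq_zero_iff.mp (by omega)
    rw [h1, mono_nil, pow_zero]
    exact Submodule.one_le.mp le_rfl
  | succ i ih =>
    intro L hL hF hne hq hc
    match L with
    | [] => simp at hL
    | a :: L' =>
      have ha := hne a List.mem_cons_self
      have h1 := hc a List.mem_cons_self
      have h2 : q / a.1 ∈ L'.map Prod.fst := by
        rw [List.map_cons, List.count_cons_self, List.count_cons_of_ne (fun h => ha.2 h.symm)] at h1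
        exact List.count_pos_iff.mp (by omega)
      obtain ⟨b, hb, hbq⟩ := List.mem_map.mp h2
      have hperm := List.perm_cons_erase hb
      set L'' := L'.erase b with hL''
      have hperm2 : (a :: L').Perm (a :: b :: L'') := hperm.cons a
      have hlen : L''.length = 2 * i := by
        have h3 := hperm.length_eq
        rw [List.length_cons] at h3 hL
        omega
      have hsub : ∀ x ∈ L'', x ∈ a :: L' := fun x hx =>
        hperm2.mem_iff.mpr (List.mem_cons_of_mem _ (List.mem_cons_of_mem _ hx))
      have hcount : ∀ z : K, ((a :: L').map Prod.fst).count z =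
          (L''.map Prod.fst).count z + (if b.1 = z then 1 else 0) + (if a.1 = z then 1 else 0) := by
        intro z
        rw [(hperm2.map Prod.fst).count_eq, List.map_cons, List.map_cons, List.count_cons,
          List.count_cons]
        simp only [beq_iff_eq]
      have hrest : mono L'' ∈ tateTwo F q ^ i := by
        refine ih L'' hlen (fun x hx => hF x (hsub x hx)) (fun x hx => hne x (hsub x hx)) hq ?_
        intro x hx
        have h3 := hc x (hsub x hx)
        have hx0 := (hne x (hsub x hx)).1
        rw [hcount, hcount] at h3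
        have h4 : (b.1 = q / x.1) ↔ (a.1 = x.1) := by
          rw [hbq]
          constructor
          · intro h
            rw [div_eq_div_iff ha.1 hx0] at h
            exact (mul_left_cancel₀ hq h).symm
          · intro h
            rw [h]
        have h5 : (a.1 = q / x.1) ↔ (b.1 = x.1) := by
          rw [hbq]
          constructor
          · intro h
            rw [h, div_div_cancel₀ hq]
          · intro h
            rw [← h, div_div_cancel₀ hq]
        simp only [h4, h5] at h3
        omega
      have hab : ι K a.2 * ι K b.2 ∈ tateTwo F q := by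
        constructor
        · have h3 : ι K a.2 * ι K b.2 ∈ (LinearMap.range (ι K : W →ₗ[K] ExteriorAlgebra K W)) ^ 2 := by
            rw [pow_two]
            exact Submodule.mul_mem_mul ⟨_, rfl⟩ ⟨_, rfl⟩
          exact h3
        · have h3 := map_mono (F := F) (L := [a, b]) (by
            intro x hx
            rcases List.mem_cons.mp hx with h | h
            · rw [h]
              exact hF a List.mem_cons_self
            · rw [List.mem_singleton.mp h]
              exact hF b (List.mem_cons_of_mem _ hb))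
          simp only [mono_cons, mono_nil, mul_one, List.map_cons, List.map_nil, List.prod_cons,
            List.prod_nil, hbq] at h3
          rw [h3, mul_div_cancel₀ _ ha.1]
      have hprod : mono (a :: b :: L'') ∈ tateTwo F q ^ (i + 1) := by
        rw [mono_cons, mono_cons, ← mul_assoc, pow_succ']
        exact Submodule.mul_mem_mul hab hrest
      rcases mono_perm hperm2 with h3 | h3
      · rw [h3]
        exact hprod
      · rw [h3]
        exact Submodule.neg_mem _ hprod

theorem span_mono {F : W →ₗ[K] W} (hF : ⨆ μ : K, Module.End.eigenspace F μ = ⊤) (n : ℕ) :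
    (⋀[K]^n W : Submodule K (ExteriorAlgebra K W)) ≤ Submodule.span K
      {x | ∃ L : List (K × W), L.length = n ∧ (∀ a ∈ L, F a.2 = a.1 • a.2) ∧ x = mono L} := by
  change (LinearMap.range (ι K : W →ₗ[K] ExteriorAlgebra K W)) ^ n ≤ _
  have h0 : LinearMap.range (ι K : W →ₗ[K] ExteriorAlgebra K W) ≤ Submodule.span K
      {x | ∃ a : K × W, F a.2 = a.1 • a.2 ∧ x = ι K a.2} := by
    rintro _ ⟨w, rfl⟩
    have hw : w ∈ ⨆ μ : K, Module.End.eigenspace F μ := by rw [hF]; trivial
    refine Submodule.iSup_induction (fun μ : K => Module.End.eigenspace F μ)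
      (motive := fun w => ι K w ∈ Submodule.span K
        {x | ∃ a : K × W, F a.2 = a.1 • a.2 ∧ x = ι K a.2}) hw ?_ ?_ ?_
    · intro μ v hv
      exact Submodule.subset_span ⟨(μ, v), Module.End.mem_eigenspace_iff.mp hv, rfl⟩
    · rw [map_zero]
      exact Submodule.zero_mem _
    · intro u v hu hv
      rw [map_add]
      exact Submodule.add_mem _ hu hv
  induction n with
  | zero =>
    rw [pow_zero, Submodule.one_le]
    exact Submodule.subset_span ⟨[], rfl, fun _ h => absurd h List.not_mem_nil, rfl⟩
  | succ n ih =>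
    rw [pow_succ']
    refine (mul_le_mul' h0 ih).trans ?_
    rw [Submodule.span_mul_span]
    refine Submodule.span_mono ?_
    rintro _ ⟨_, ⟨a, ha, rfl⟩, _, ⟨L, hL1, hL2, rfl⟩, rfl⟩
    refine ⟨a :: L, by rw [List.length_cons, hL1], ?_, (mono_cons a L).symm⟩
    intro b hb
    rcases List.mem_cons.mp hb with h | h
    · rw [h]
      exact ha
    · exact hL2 b h

/-- Eigenvectors in a span of eigenvectors. -/
theorem mem_span_eigen {E : Type*} [AddCommGroup E] [Module K E] (Φ : Module.End K E) (S : Set E)
    (ev : E → K) (hS : ∀ x ∈ S, Φ x = ev x • x) {x : E} {c : K}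
    (hx : x ∈ Submodule.span K S) (hxc : Φ x = c • x) :
    x ∈ Submodule.span K {y | y ∈ S ∧ ev y = c} := by
  have h1 : S = {y | y ∈ S ∧ ev y = c} ∪ {y | y ∈ S ∧ ev y ≠ c} := by
    ext y
    by_cases h : ev y = c
    · simp [h]
    · simp [h]
  rw [h1, Submodule.span_union] at hx
  obtain ⟨x₁, hx₁, x₂, hx₂, rfl⟩ := Submodule.mem_sup.mp hx
  have h2 : x₁ ∈ Module.End.eigenspace Φ c := by
    refine Submodule.span_le.mpr ?_ hx₁
    rintro y ⟨hy, hyc⟩
    rw [SetLike.mem_coe, Module.End.mem_eigenspace_iff, hS y hy, hyc]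
  have h3 : x₂ ∈ ⨆ μ, ⨆ (_ : μ ≠ c), Module.End.eigenspace Φ μ := by
    refine Submodule.span_le.mpr ?_ hx₂
    rintro y ⟨hy, hyc⟩
    refine Submodule.mem_iSup_of_mem (ev y) (Submodule.mem_iSup_of_mem hyc ?_)
    rw [Module.End.mem_eigenspace_iff, hS y hy]
  have h4 : x₂ ∈ Module.End.eigenspace Φ c := by
    have h5 : x₁ + x₂ ∈ Module.End.eigenspace Φ c := Module.End.mem_eigenspace_iff.mpr hxc
    have h6 := Submodule.sub_mem _ h5 h2
    rwa [add_sub_cancel_left] at h6
  have h5 := (Module.End.eigenspaces_iSupIndep Φ) c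
  have h6 : x₂ = 0 := by
    have := (Submodule.disjoint_def.mp h5) x₂ h4 h3
    exact this
  rw [h6, add_zero]
  exact hx₁

open Classical in
/-- **Generation in degree two.** -/
theorem generated {F : W →ₗ[K] W} (hF : ⨆ μ : K, Module.End.eigenspace F μ = ⊤) {q : K}
    (hq : q ≠ 0) (i m : ℕ)
    (hne : ∀ z, Module.End.HasEigenvalue F z → z ≠ 0 ∧ q / z ≠ z)
    (hrel : ∀ M : Multiset K, (∀ z ∈ M, Module.End.HasEigenvalue F z) → M.card = 2 * i →
      M.prod ^ m = q ^ (i * m) → ∀ z ∈ M, M.count (q / z) = M.count z)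
    {x : ExteriorAlgebra K W} (hx : x ∈ ⋀[K]^(2 * i) W)
    (hxF : ExteriorAlgebra.map (F ^ m) x = q ^ (i * m) • x) : x ∈ tateTwo F q ^ i := by
  set S : Set (ExteriorAlgebra K W) := {x | ∃ L : List (K × W), L.length = 2 * i ∧
    (∀ a ∈ L, F a.2 = a.1 • a.2) ∧ x = mono L} with hSdef
  have hS : ∀ x ∈ S, ∃ c : K, ∃ L : List (K × W), L.length = 2 * i ∧
      (∀ a ∈ L, F a.2 = a.1 • a.2) ∧ x = mono L ∧ c = (L.map Prod.fst).prod ^ m := by
    rintro x ⟨L, h1, h2, h3⟩
    exact ⟨_, L, h1, h2, h3, rfl⟩
  choose! ev Lf hev using hS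
  have hpow : ∀ L : List (K × W), (∀ a ∈ L, F a.2 = a.1 • a.2) →
      ExteriorAlgebra.map (F ^ m) (mono L) = (L.map Prod.fst).prod ^ m • mono L := by
    intro L hL
    have h1 : ∀ n : ℕ, ExteriorAlgebra.map (F ^ n) (mono L) =
        (L.map Prod.fst).prod ^ n • mono L := by
      intro n
      induction n with
      | zero =>
        rw [pow_zero, pow_zero, one_smul]
        have h2 : ExteriorAlgebra.map (1 : Module.End K W) = AlgHom.id K _ :=
          ExteriorAlgebra.map_id
        rw [h2]
        rfl
      | succ n ih =>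
        have h2 : ExteriorAlgebra.map (F ^ (n + 1)) =
            (ExteriorAlgebra.map F).comp (ExteriorAlgebra.map (F ^ n)) := by
          rw [ExteriorAlgebra.map_comp_map, pow_succ']
          rfl
        rw [h2, AlgHom.comp_apply, ih, map_smul, map_mono hL, smul_smul, pow_succ]
    exact h1 m
  have h1 := mem_span_eigen (ExteriorAlgebra.map (F ^ m)).toLinearMap S ev (by
    intro y hy
    obtain ⟨h2, h3, h4, h5⟩ := hev y hy
    have h6 := hpow (Lf y) h3
    rw [← h4, ← h5] at h6
    exact h6) (span_mono hF _ hx) hxF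
  refine Submodule.span_le.mpr ?_ h1
  rintro y ⟨hy, hyc⟩
  obtain ⟨h2, h3, h4, h5⟩ := hev y hy
  rw [hyc] at h5
  rw [SetLike.mem_coe, h4]
  by_cases h0 : ∃ a ∈ Lf y, a.2 = 0
  · obtain ⟨a, ha, ha0⟩ := h0
    have h6 : mono (Lf y) = 0 := by
      apply List.prod_eq_zero
      refine List.mem_map.mpr ⟨a, ha, ?_⟩
      rw [ha0, map_zero]
    rw [h6]
    exact Submodule.zero_mem _
  · push Not at h0
    have heig : ∀ a ∈ Lf y, Module.End.HasEigenvalue F a.1 := fun a ha =>
      Module.End.hasEigenvalue_of_hasEigenvector (x := a.2)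
        ⟨Module.End.mem_eigenspace_iff.mpr (h3 a ha), h0 a ha⟩
    refine mono_mem i (Lf y) h2 h3 (fun a ha => hne _ (heig a ha)) hq ?_
    intro a ha
    have h6 := hrel (((Lf y).map Prod.fst : List K) : Multiset K) (by
      intro z hz
      rw [Multiset.mem_coe, List.mem_map] at hz
      obtain ⟨b, hb, rfl⟩ := hz
      exact heig b hb) (by rw [Multiset.coe_card, List.length_map, h2])
      (by rw [Multiset.prod_coe, ← h5]) a.1 (by
        rw [Multiset.mem_coe]
        exact List.mem_map_of_mem ha)
    rw [Multiset.coe_count, Multiset.coe_count] at h6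
    exact h6

end Pool.Agent.TateTwo
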