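import Pool.Agent.TateTwo.AllPrimes

/-!
# Multiplicative relations between the roots of a Weil polynomial
-/

set_option autoImplicit false

namespace Pool.Agent.TateTwo

open Polynomial MulAction

section Roots

variable {P : ℚ[X]} {L : Type*} [Field L] [CharZero L] [Algebra.IsAlgebraic ℚ L]

/-- The map `x ↦ q / x` on the roots of a Weil polynomial. -/
theorem div_mem {q : ℕ} (hC : ∀ z : ℂ, aeval z P = 0 → ‖z‖ ^ 2 = (q : ℝ))
    (hq : q ≠ 0) {x : L} (hx : aeval x P = 0) :
    aeval ((q : L) / x) P = 0 := by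
  let j : L →ₐ[ℚ] ℂ := IsAlgClosed.lift
  have h1 : aeval (j x) P = 0 := by
    rw [aeval_algHom_apply, hx, map_zero]
  have h2 := hC _ h1
  have h3 : j x * (starRingEnd ℂ) (j x) = (q : ℂ) := by
    rw [Complex.mul_conj, Complex.normSq_eq_norm_sq, h2]
    norm_num
  have hjx : j x ≠ 0 := by
    intro h0
    rw [h0, zero_mul] at h3
    exact hq (by exact_mod_cast h3.symm)
  have h4 : (starRingEnd ℂ) (j x) = j ((q : L) / x) := by
    rw [map_div₀, map_natCast, eq_div_iff hjx, mul_comm]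
    exact h3
  have h5 : aeval ((starRingEnd ℂ) (j x)) P = 0 := by
    have h6 : aeval ((starRingEnd ℂ) (j x)) P = (starRingEnd ℂ) (aeval (j x) P) := by
      rw [aeval_def, aeval_def, hom_eval₂]
      congr 1
      exact Subsingleton.elim _ _
    rw [h6, h1, map_zero]
  rw [h4, aeval_algHom_apply] at h5
  exact (map_eq_zero j).mp h5

theorem ne_zero_of_root {q : ℕ} (hC : ∀ z : ℂ, aeval z P = 0 → ‖z‖ ^ 2 = (q : ℝ))
    (hq : q ≠ 0) {x : L} (hx : aeval x P = 0) : x ≠ 0 := by
  rintro rfl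
  let j : L →ₐ[ℚ] ℂ := IsAlgClosed.lift
  have h1 : aeval (j 0) P = 0 := by
    rw [aeval_algHom_apply, hx, map_zero]
  have h2 := hC _ h1
  rw [map_zero, norm_zero] at h2
  apply hq
  have h3 : (q : ℝ) = 0 := by rw [← h2]; norm_num
  exact_mod_cast h3

omit [Algebra.IsAlgebraic ℚ L] in
theorem div_ne_self (hP : Irreducible P) (hdeg : 2 < P.natDegree) {q : ℕ} {x : L}
    (hx : aeval x P = 0) (hx0 : x ≠ 0) : (q : L) / x ≠ x := by
  intro h
  have h1 : (q : L) = x * x := by
    rw [div_eq_iff hx0] at h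
    exact h
  have h2 : aeval x (X ^ 2 - C (q : ℚ)) = 0 := by
    simp only [map_sub, map_pow, aeval_X, aeval_C]
    rw [map_natCast, h1]
    ring
  have h3 : minpoly ℚ x ∣ X ^ 2 - C (q : ℚ) := minpoly.dvd ℚ x h2
  have h4 := minpoly.eq_of_irreducible hP hx
  have h5 : (minpoly ℚ x).natDegree = P.natDegree := by
    rw [← h4, natDegree_mul_C]
    exact inv_ne_zero (leadingCoeff_ne_zero.mpr hP.ne_zero)
  have h6 : (X ^ 2 - C (q : ℚ)) ≠ 0 := X_pow_sub_C_ne_zero (by norm_num) _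
  have h7 := natDegree_le_of_dvd h3 h6
  rw [natDegree_X_pow_sub_C, h5] at h7
  omega

end Roots

section Main

variable {p : ℕ} [hp : Fact p.Prime] {L : Type*} [Field L] [CharZero L] [FiniteDimensional ℚ L]
  [Normal ℚ L]

theorem norm_q (a : ℕ) : ‖((p ^ a : ℕ) : PadicAlgCl p)‖ = ((p : ℝ) ^ a)⁻¹ := by
  have h1 : ((p ^ a : ℕ) : PadicAlgCl p) = algebraMap ℚ_[p] (PadicAlgCl p) ((p : ℚ_[p]) ^ a) := by
    rw [map_pow, map_natCast]
    push_cast
    rfl
  rw [h1, PadicAlgCl.norm_extends, norm_pow, Padic.norm_p, inv_pow]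

/-- **Multiplicative relations are trivial**, in the splitting field. -/
theorem relations_splitting (j : L →ₐ[ℚ] PadicAlgCl p) {a : ℕ} (ha : 0 < a) (P : ℚ[X]) (hsplit : (P.map (algebraMap ℚ L)).Splits) (hP : Irreducible P)
    (hdeg : 2 < P.natDegree) (hC : ∀ z : ℂ, aeval z P = 0 → ‖z‖ ^ 2 = ((p ^ a : ℕ) : ℝ))
    (s : ℝ) (hs : s ≠ 0) (r : PadicAlgCl p → ℤ)
    (hr : ∀ z ∈ P.rootSet (PadicAlgCl p), ‖z‖ ^ 2 = ((p ^ a : ℕ) : ℝ) ^ (-(1 + s * r z)))
    (g : ℚ[X]) (t : PadicAlgCl p) {l k : ℕ} (hl : l.Prime) (B : Set (PadicAlgCl p))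
    (hB : B = {z | z ∈ P.rootSet (PadicAlgCl p) ∧ aeval z g = t})
    (hBc : ∀ z ∈ B, ((p ^ a : ℕ) : PadicAlgCl p) / z ∈ B) (hBk : B.ncard = 2 * l ^ k)
    (hcond : ((∀ z ∈ P.rootSet (PadicAlgCl p), z ∉ B → (l : ℤ) ∣ r z) ∧
      ∀ C : Finset (PadicAlgCl p), (∀ z ∈ C, z ∈ B) →
        (∀ z ∈ B, z ∈ C ↔ ((p ^ a : ℕ) : PadicAlgCl p) / z ∉ C) →
        (l ≠ 2 → ∃ Q : Subgroup (L ≃ₐ[ℚ] L), IsPGroup l Q ∧ ∃ z : L, ∀ w : PadicAlgCl p,
          w ∈ C ↔ ∃ σ ∈ Q, j (σ z) = w) → ¬ (l : ℤ) ∣ ∑ z ∈ C, r z) ∨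
      (l = 2 ∧ (∀ z ∈ P.rootSet (PadicAlgCl p), z ∉ B → Odd (r z)) ∧
        {z | z ∈ B ∧ ¬ Odd (r z)}.ncard % 4 = 2 ∧ 4 ∣ P.natDegree)) (m i : ℕ) (hm : 0 < m)
    (w : P.rootSet L → ℕ)
    (hcard : ∑ x, w x = 2 * i)
    (hprod : (∏ x : P.rootSet L, (x : L) ^ w x) ^ m =
      ((p ^ a : ℕ) : L) ^ (i * m))
    (x y : P.rootSet L) (hxy : (y : L) = ((p ^ a : ℕ) :
      L) / x) : w y = w x := by
  classical
  have hlf : Fact l.Prime := ⟨hl⟩
  set q : ℕ := p ^ a with hq
  have hq1 : 1 < q := Nat.one_lt_pow ha.ne' hp.1.one_lt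
  have hq0 : q ≠ 0 := by omega
  have hroot : ∀ x : P.rootSet L, aeval (x : L) P = 0 := fun x => (mem_rootSet.mp x.2).2
  have hx0 : ∀ x : P.rootSet L, (x : L) ≠ 0 := fun x => ne_zero_of_root hC hq0 (hroot x)
  let c : P.rootSet L → P.rootSet L := fun x => ⟨(q : L) / x, mem_rootSet.mpr ⟨hP.ne_zero, div_mem hC hq0 (hroot x)⟩⟩
  have hcval : ∀ x : P.rootSet L, ((c x : P.rootSet L) : L) = (q : L) / x := fun _ => rfl
  have hqL : (q : L) ≠ 0 := by exact_mod_cast hq0
  have hc : ∀ x, c (c x) = x := by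
    intro x
    apply Subtype.ext
    rw [hcval, hcval, div_div_cancel₀ hqL]
  have hne : ∀ x, c x ≠ x := by
    intro x h
    exact div_ne_self hP hdeg (hroot x) (hx0 x) (congrArg Subtype.val h)
  let G := L ≃ₐ[ℚ] L
  have hfinG : Finite G := inferInstance
  let act : MulAction G (P.rootSet L) :=
    { smul := fun σ x => ⟨σ (x : L), mem_rootSet.mpr ⟨hP.ne_zero, by
        have h1 := aeval_algHom_apply σ.toAlgHom (x : L) P
        rw [hroot x, map_zero] at h1
        exact h1⟩⟩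
      one_smul := fun x => rfl
      mul_smul := fun σ τ x => rfl }
  have hsmul : ∀ (σ : G) (x : P.rootSet L), ((σ • x : P.rootSet L) : L) = σ (x : L) := fun _ _ => rfl
  have hcG : ∀ (σ : G) (x : P.rootSet L), σ • c x = c (σ • x) := by
    intro σ x
    apply Subtype.ext
    rw [hsmul, hcval, hcval, hsmul, map_div₀, map_natCast]
  have htr : IsPretransitive G (P.rootSet L) := by
    refine ⟨fun x y => ?_⟩
    have hx := minpoly.eq_of_irreducible hP (hroot x)
    have hy := minpoly.eq_of_irreducible hP (hroot y)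
    obtain ⟨g, hg⟩ := (Normal.minpoly_eq_iff_mem_orbit L).mp (hy.symm.trans hx)
    refine ⟨g, Subtype.ext hg⟩
  -- the embedding in the algebraic closure of `ℚ_p`
  have himg : j '' (P.rootSet L) = P.rootSet (PadicAlgCl p) :=
    hsplit.image_rootSet j
  have hjR : ∀ x : P.rootSet L, j x ∈ P.rootSet (PadicAlgCl p) := fun x => by
    rw [← himg]
    exact ⟨x, x.2, rfl⟩
  let f : P.rootSet L → ℤ := fun x => r (j x)
  have hnq : ‖(q : PadicAlgCl p)‖ = ((q : ℕ) : ℝ)⁻¹ := by
    rw [hq, norm_q]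
    push_cast
    rfl
  have hqR : (1 : ℝ) < q := by exact_mod_cast hq1
  have hqpos : (0 : ℝ) < q := by linarith
  have hnorm : ∀ x : P.rootSet L, ‖j x‖ ^ 2 = (q : ℝ) ^ (-(1 + s * f x)) := fun x => hr _ (hjR x)
  have hf : ∀ x, f (c x) = -f x := by
    intro x
    have h1 := hnorm (c x)
    have h2 := hnorm x
    have h3 : j (c x : P.rootSet L) = (q : PadicAlgCl p) / j x := by
      rw [hcval, map_div₀, map_natCast]
    rw [h3, norm_div, div_pow, h2, hnq, inv_pow, ← Real.rpow_natCast, ← Real.rpow_neg hqpos.le,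
      ← Real.rpow_sub hqpos, Real.rpow_right_inj hqpos hqR.ne'] at h1
    have h4 : s * ((f (c x) : ℝ) + f x) = 0 := by
      push_cast at h1
      linarith
    have h5 := (mul_eq_zero.mp h4).resolve_left hs
    have h6 : ((f (c x) + f x : ℤ) : ℝ) = 0 := by
      push_cast
      exact h5
    have h7 : f (c x) + f x = 0 := by exact_mod_cast h6
    linarith
  -- the relation
  have hrel : ∀ σ : G, ∑ x, (w x : ℤ) * f (σ • x) = 0 := by
    intro σ
    have h1 := congrArg (fun z : L => ‖j (σ z)‖) hprod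
    simp only [map_pow, map_prod, map_natCast, norm_pow, norm_prod, hnq] at h1
    have h2 : (∏ x : P.rootSet L, ‖j ((σ • x : P.rootSet L) : L)‖ ^ w x) ^ (m * 2) =
        ((q : ℝ) ^ (-(i : ℝ))) ^ (m * 2) := by
      have h3 : ∏ x : P.rootSet L, ‖j ((σ • x : P.rootSet L) : L)‖ ^ w x = ∏ x : P.rootSet L, ‖j (σ (x : L))‖ ^ w x := rfl
      have h4 : (q : ℝ) ^ (-(i : ℝ)) = ((q : ℝ)⁻¹) ^ i := by
        rw [Real.rpow_neg hqpos.le, Real.rpow_natCast, inv_pow]
      rw [h3, pow_mul, h1, h4, pow_mul, pow_mul]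
    have h3 : ∏ x : P.rootSet L, ‖j ((σ • x : P.rootSet L) : L)‖ ^ w x = (q : ℝ) ^ (-(i : ℝ)) := by
      refine (pow_left_inj₀ ?_ (Real.rpow_nonneg hqpos.le _) (by omega)).mp h2
      exact Finset.prod_nonneg fun x _ => pow_nonneg (norm_nonneg _) _
    have h4 : (∏ x : P.rootSet L, ‖j ((σ • x : P.rootSet L) : L)‖ ^ w x) ^ 2 =
        (q : ℝ) ^ (-(∑ x : P.rootSet L, (w x : ℝ) * (1 + s * f (σ • x)))) := by
      rw [← Finset.prod_pow, ← Finset.sum_neg_distrib, Real.rpow_sum_of_pos hqpos]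
      refine Finset.prod_congr rfl fun x _ => ?_
      rw [← pow_mul, mul_comm (w x) 2, pow_mul, hnorm, ← Real.rpow_natCast,
        ← Real.rpow_mul hqpos.le]
      congr 1
      ring
    rw [h3, ← Real.rpow_natCast, ← Real.rpow_mul hqpos.le,
      Real.rpow_right_inj hqpos hqR.ne'] at h4
    have h5 : ∑ x : P.rootSet L, (w x : ℝ) * (1 + s * f (σ • x)) =
        ((∑ x : P.rootSet L, w x : ℕ) : ℝ) + s * ((∑ x : P.rootSet L, (w x : ℤ) * f (σ • x) : ℤ) : ℝ) := by
      push_cast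
      rw [Finset.mul_sum, ← Finset.sum_add_distrib]
      refine Finset.sum_congr rfl fun x _ => ?_
      ring
    rw [h5, hcard] at h4
    have h6 : s * ((∑ x : P.rootSet L, (w x : ℤ) * f (σ • x) : ℤ) : ℝ) = 0 := by
      push_cast at h4 ⊢
      linarith
    have h7 := (mul_eq_zero.mp h6).resolve_left hs
    exact_mod_cast h7
  have hcR : ∀ F : P.rootSet L → ℤ, ∑ x, F (c x) = ∑ x, F x := by
    intro F
    exact Fintype.sum_equiv (Function.Involutive.toPerm c hc) _ _ fun _ => rfl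
  have hrel2 : ∀ σ : G, ∑ x, ((w x : ℤ) - w (c x)) * f (σ • x) = 0 := by
    intro σ
    have h1 : ∑ x, (w (c x) : ℤ) * f (σ • x) = -∑ x, (w x : ℤ) * f (σ • x) := by
      rw [← hcR (fun x => (w x : ℤ) * f (σ • x)), ← Finset.sum_neg_distrib]
      refine Finset.sum_congr rfl fun x _ => ?_
      rw [hcG, hf]
      ring
    simp only [sub_mul, Finset.sum_sub_distrib, h1, hrel σ]
    norm_num
  -- the block
  have hBne : B.Nonempty := by
    have h0 : 0 < 2 * l ^ k := Nat.mul_pos two_pos (pow_pos hl.pos k)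
    rw [← Set.ncard_pos (Set.finite_of_ncard_ne_zero (by rw [hBk]; exact h0.ne')), hBk]
    exact h0
  obtain ⟨z₀, hz₀⟩ := hBne
  rw [hB] at hz₀
  obtain ⟨hz₀R, hz₀t⟩ := hz₀
  rw [← himg] at hz₀R
  obtain ⟨w₀, hw₀, hjw₀⟩ := hz₀R
  set x₀ : P.rootSet L := ⟨w₀, hw₀⟩ with hx₀def
  set tL : L := aeval w₀ g with htL
  have hjt : j tL = t := by
    rw [htL, ← aeval_algHom_apply, hjw₀, hz₀t]
  let H : Subgroup G := { carrier := {σ | σ tL = tL}
                          mul_mem' := by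
                            intro σ τ h1 h2
                            change σ (τ tL) = tL
                            rw [h2, h1]
                          one_mem' := rfl
                          inv_mem' := by
                            intro σ h1
                            change σ⁻¹ tL = tL
                            have h2 : σ⁻¹ (σ tL) = tL := AlgEquiv.symm_apply_apply σ tL
                            rw [h1] at h2
                            exact h2 }
  have hmemB : ∀ x : P.rootSet L, x ∈ orbit H x₀ ↔ j x ∈ B := by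
    intro x
    rw [hB]
    constructor
    · rintro ⟨σ, rfl⟩
      refine ⟨hjR _, ?_⟩
      have h1 : (((σ • x₀ : P.rootSet L)) : L) = (σ : G) w₀ := rfl
      change aeval (j ((σ • x₀ : P.rootSet L) : L)) g = t
      have h5 : aeval ((σ : G) w₀) g = (σ : G) (aeval w₀ g) :=
        aeval_algHom_apply (σ : G).toAlgHom w₀ g
      rw [h1, aeval_algHom_apply, h5]
      change j ((σ : G) tL) = t
      rw [σ.2, hjt]
    · rintro ⟨-, h1⟩
      obtain ⟨σ, hσ⟩ := MulAction.exists_smul_eq G x₀ x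
      refine ⟨⟨σ, ?_⟩, hσ⟩
      change σ tL = tL
      have h2 : (x : L) = σ w₀ := by rw [← hσ]; rfl
      have h3 : aeval (x : L) g = σ tL := by
        rw [h2]
        exact aeval_algHom_apply σ.toAlgHom w₀ g
      rw [aeval_algHom_apply, h3, ← hjt] at h1
      exact j.injective h1
  have hncard : ∀ (C : Set (PadicAlgCl p)) (D : Set (P.rootSet L)), C ⊆ P.rootSet (PadicAlgCl p) →
      (∀ x : P.rootSet L, x ∈ D ↔ j x ∈ C) → D.ncard = C.ncard := by
    intro C D hC' hD
    have hinj : Function.Injective (fun x : P.rootSet L => j (x : L)) := fun x y h =>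
      Subtype.ext (j.injective h)
    rw [← Set.ncard_image_of_injective D hinj]
    congr 1
    ext z
    constructor
    · rintro ⟨x, hx, rfl⟩
      exact (hD x).mp hx
    · intro hz
      have h1 := hC' hz
      rw [← himg] at h1
      obtain ⟨w, hw, rfl⟩ := h1
      exact ⟨⟨w, hw⟩, (hD ⟨w, hw⟩).mpr hz, rfl⟩
  have hBR : B ⊆ P.rootSet (PadicAlgCl p) := by
    rw [hB]
    exact fun z hz => hz.1
  have hjc : ∀ x : P.rootSet L, j (c x : P.rootSet L) = (q : PadicAlgCl p) / j x := fun x => by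
    rw [hcval, map_div₀, map_natCast]
  have hjinj : Function.Injective (fun x : P.rootSet L => j (x : L)) := fun x y h =>
    Subtype.ext (j.injective h)
  have hfinal := int_rel (G := G) (l := l) c hc hne hcG H x₀ (k := k)
    (by
      intro x hx
      rw [hmemB] at hx ⊢
      have h1 := hBc _ hx
      rw [hjc]
      exact h1)
    (by rw [hncard B _ hBR hmemB, hBk]) f hf
    (by
      rcases hcond with ⟨h1, h2⟩ | ⟨hl2, h1, h2, h4⟩
      · left
        refine ⟨fun x hx => h1 _ (hjR x) (fun h => hx ((hmemB x).mpr h)), ?_⟩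
        intro C hC1 hC2 hC3
        have h3 := h2 (C.image fun x : P.rootSet L => j (x : L)) (by
          intro z hz
          obtain ⟨x, hx, rfl⟩ := Finset.mem_image.mp hz
          exact (hmemB x).mp (hC1 x hx)) (by
          intro z hz
          have hz2 := hBR hz
          rw [← himg] at hz2
          obtain ⟨w, hw, rfl⟩ := hz2
          have h4 := hC2 ⟨w, hw⟩ ((hmemB ⟨w, hw⟩).mpr hz)
          have h5 : ∀ y : P.rootSet L, j (y : L) ∈ C.image (fun x : P.rootSet L => j (x : L)) ↔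
              y ∈ C := by
            intro y
            constructor
            · intro h
              obtain ⟨x, hx, hxy⟩ := Finset.mem_image.mp h
              rw [← hjinj hxy]
              exact hx
            · intro h
              exact Finset.mem_image_of_mem _ h
          have h6 := h5 ⟨w, hw⟩
          have h7 := h5 (c ⟨w, hw⟩)
          rw [hjc] at h7
          rw [h6, h4]
          exact not_congr h7.symm) (by
          intro hl2
          obtain ⟨Q, hQ, hQC⟩ := hC3 hl2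
          refine ⟨Q, hQ, w₀, fun w => ?_⟩
          rw [Finset.mem_image]
          constructor
          · rintro ⟨x, hx, rfl⟩
            obtain ⟨σ, hσ⟩ := (hQC x).mp hx
            refine ⟨σ, σ.2, ?_⟩
            rw [← hσ]
            rfl
          · rintro ⟨σ, hσ, rfl⟩
            exact ⟨(σ : G) • x₀, (hQC _).mpr ⟨⟨σ, hσ⟩, rfl⟩, rfl⟩)
        rw [Finset.sum_image (fun x _ y _ h => hjinj h)] at h3
        exact h3
      · right
        refine ⟨hl2, fun x hx => h1 _ (hjR x) (fun h => hx ((hmemB x).mpr h)), ?_, ?_⟩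
        · rw [hncard {z | z ∈ B ∧ ¬ Odd (r z)} {x | x ∈ orbit H x₀ ∧ ¬ Odd (f x)}
            (fun z hz => hBR hz.1) (fun x => by
              rw [Set.mem_ofPred_eq, Set.mem_ofPred_eq, hmemB])]
          exact h2
        · rw [card_rootSet_eq_natDegree hP.separable hsplit]
          exact h4)
    (fun x => (w x : ℤ) - w (c x)) (fun x => by rw [hc]; ring) hrel2
  have h1 := congrFun hfinal x
  have h2 : (w x : ℤ) - w (c x) = 0 := h1
  have h3 : y = c x := Subtype.ext hxy
  rw [h3]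
  have h4 : (w x : ℤ) = w (c x) := by linarith
  exact_mod_cast h4.symm

end Main

section Closed

variable {p : ℕ} [hp : Fact p.Prime]

theorem root_ne_zero {P : ℚ[X]} (hP : Irreducible P) (hdeg : 2 < P.natDegree) {K : Type*} [Field K]
    [CharZero K] {z : K} (hz : aeval z P = 0) : z ≠ 0 := by
  rintro rfl
  have h4 := minpoly.eq_of_irreducible hP hz
  have h5 : (minpoly ℚ (0 : K)).natDegree = P.natDegree := by
    rw [← h4, natDegree_mul_C]
    exact inv_ne_zero (leadingCoeff_ne_zero.mpr hP.ne_zero)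
  rw [minpoly.zero, natDegree_X] at h5
  omega

/-- The field generated by the roots of `P` in `E`. -/
def rootField (E : Type*) [Field E] [CharZero E] (P : ℚ[X]) : IntermediateField ℚ E :=
  IntermediateField.adjoin ℚ (P.rootSet E)

/-- `C` is the image under `j` of an orbit of a subgroup of order a power of `l` of the group of
automorphisms of the field `L`. -/
def IsLOrbitOf {L E : Type*} [Field L] [Algebra ℚ L] (l : ℕ) (j : L → E) (C : Finset E) : Prop :=
  ∃ Q : Subgroup (L ≃ₐ[ℚ] L), IsPGroup l Q ∧ ∃ z : L, ∀ w : E, w ∈ C ↔ ∃ σ ∈ Q, j (σ z) = w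

/-- `C` is an orbit of a subgroup of order a power of `l` of the Galois group of `P`, the group of
automorphisms of the field generated by the roots. -/
def IsLOrbit {E : Type*} [Field E] [CharZero E] (l : ℕ) (P : ℚ[X]) (C : Finset E) : Prop :=
  IsLOrbitOf (L := rootField E P) l Subtype.val C

/-- `C` is a subset of `B` which contains exactly one of `z`, `q / z` for all `z` in `B`. -/
def IsSection {E : Type*} [Field E] (q : ℕ) (B : Set E) (C : Finset E) : Prop :=
  (∀ z ∈ C, z ∈ B) ∧ ∀ z ∈ B, z ∈ C ↔ (q : E) / z ∉ C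

/-- The condition (i): `r` is divisible by `l` outside `B`, and its sum over every `C` as in
`IsSection` (for odd `l`: which is also an `IsLOrbit`) is not divisible by `l`. -/
def CondOne {E : Type*} [Field E] [CharZero E] (q l : ℕ) (P : ℚ[X]) (r : E → ℤ) (B : Set E) :
    Prop :=
  (∀ z ∈ P.rootSet E, z ∉ B → (l : ℤ) ∣ r z) ∧
    ∀ C : Finset E, IsSection q B C → (l ≠ 2 → IsLOrbit l P C) → ¬ (l : ℤ) ∣ ∑ z ∈ C, r z

/-- The condition (ii): `l = 2`, `4` divides the degree of `P`, `r` is odd outside `B` and the number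
of its even values on `B` is congruent to two modulo four. -/
def CondTwo {E : Type*} [Field E] [CharZero E] (l : ℕ) (P : ℚ[X]) (r : E → ℤ) (B : Set E) : Prop :=
  l = 2 ∧ (∀ z ∈ P.rootSet E, z ∉ B → Odd (r z)) ∧
    {z | z ∈ B ∧ ¬ Odd (r z)}.ncard % 4 = 2 ∧ 4 ∣ P.natDegree

open Classical in
/-- **Multiplicative relations are trivial**, in an algebraically closed field. -/
theorem relations {a : ℕ} (ha : 0 < a) (P : ℚ[X]) (hP : Irreducible P)
    (hdeg : 2 < P.natDegree) (hC : ∀ z : ℂ, aeval z P = 0 → ‖z‖ ^ 2 = ((p ^ a : ℕ) : ℝ))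
    (s : ℝ) (hs : s ≠ 0) (r : PadicAlgCl p → ℤ)
    (hr : ∀ z ∈ P.rootSet (PadicAlgCl p), ‖z‖ ^ 2 = ((p ^ a : ℕ) : ℝ) ^ (-(1 + s * r z)))
    (g : ℚ[X]) (t : PadicAlgCl p) {l k : ℕ} (hl : l.Prime) (B : Set (PadicAlgCl p))
    (hB : B = {z | z ∈ P.rootSet (PadicAlgCl p) ∧ aeval z g = t})
    (hBc : ∀ z ∈ B, ((p ^ a : ℕ) : PadicAlgCl p) / z ∈ B) (hBk : B.ncard = 2 * l ^ k)
    (hcond : CondOne (p ^ a) l P r B ∨ CondTwo l P r B)
    {K : Type*} [Field K] [IsAlgClosed K] [CharZero K]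
    (M : Multiset K) (hM : ∀ z ∈ M, z ∈ P.rootSet K) (m i : ℕ) (hm : 0 < m)
    (hcard : M.card = 2 * i) (hprod : M.prod ^ m = ((p ^ a : ℕ) : K) ^ (i * m))
    (z : K) (hz : z ∈ P.rootSet K) : M.count (((p ^ a : ℕ) : K) / z) = M.count z := by
  have hsplitE : (P.map (algebraMap ℚ (PadicAlgCl p))).Splits := IsAlgClosed.splits _
  let L := rootField (PadicAlgCl p) P
  have hsf : IsSplittingField ℚ L P := IntermediateField.adjoin_rootSet_isSplittingField hsplitE
  have hn : Normal ℚ L := Normal.of_isSplittingField P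
  have hfin : FiniteDimensional ℚ L := IsSplittingField.finiteDimensional L P
  have hsplit : (P.map (algebraMap ℚ L)).Splits := IsSplittingField.splits L P
  let j : L →ₐ[ℚ] K := IsAlgClosed.lift
  have himg : j '' P.rootSet L = P.rootSet K := hsplit.image_rootSet j
  have hinj : Function.Injective (fun x : P.rootSet L => j (x : L)) :=
    fun x y h => Subtype.ext (j.injective h)
  have hsub : ∀ w ∈ M, w ∈ Finset.univ.image
      (fun x : P.rootSet L => j (x : L)) := by
    intro w hw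
    have h1 := hM w hw
    rw [← himg] at h1
    obtain ⟨v, hv, rfl⟩ := h1
    exact Finset.mem_image.mpr ⟨⟨v, hv⟩, Finset.mem_univ _, rfl⟩
  set w : P.rootSet L → ℕ := fun x => M.count (j x) with hw
  have hsum : ∑ x, w x = 2 * i := by
    rw [← hcard, ← Multiset.sum_count_eq_card hsub, Finset.sum_image (fun x _ y _ h => hinj h)]
  have hprod' : (∏ x : P.rootSet L, (x : L) ^ w x) ^ m =
      ((p ^ a : ℕ) : L) ^ (i * m) := by
    apply j.injective
    rw [map_pow, map_pow, map_natCast, ← hprod, map_prod]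
    congr 1
    rw [Finset.prod_multiset_count_of_subset M (Finset.univ.image
      (fun x : P.rootSet L => j (x : L)))
      (fun w hw => hsub w (Multiset.mem_toFinset.mp hw)),
      Finset.prod_image (fun x _ y _ h => hinj h)]
    refine Finset.prod_congr rfl fun x _ => ?_
    rw [map_pow]
    rfl
  rw [← himg] at hz
  obtain ⟨v, hv, rfl⟩ := hz
  have hq0 : p ^ a ≠ 0 := pow_ne_zero _ hp.1.ne_zero
  have hv' : ((p ^ a : ℕ) : L) / v ∈ P.rootSet L :=
    mem_rootSet.mpr ⟨hP.ne_zero, div_mem hC hq0 (mem_rootSet.mp hv).2⟩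
  have hcond' : ((∀ z ∈ P.rootSet (PadicAlgCl p), z ∉ B → (l : ℤ) ∣ r z) ∧
      ∀ C : Finset (PadicAlgCl p), (∀ z ∈ C, z ∈ B) →
        (∀ z ∈ B, z ∈ C ↔ ((p ^ a : ℕ) : PadicAlgCl p) / z ∉ C) →
        (l ≠ 2 → ∃ Q : Subgroup (L ≃ₐ[ℚ] L), IsPGroup l Q ∧ ∃ z : L, ∀ w : PadicAlgCl p,
          w ∈ C ↔ ∃ σ ∈ Q, L.val (σ z) = w) → ¬ (l : ℤ) ∣ ∑ z ∈ C, r z) ∨
      (l = 2 ∧ (∀ z ∈ P.rootSet (PadicAlgCl p), z ∉ B → Odd (r z)) ∧
        {z | z ∈ B ∧ ¬ Odd (r z)}.ncard % 4 = 2 ∧ 4 ∣ P.natDegree) := by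
    rcases hcond with ⟨h1, h2⟩ | h1
    · exact Or.inl ⟨h1, fun C hC1 hC2 hC3 => h2 C ⟨hC1, hC2⟩ hC3⟩
    · exact Or.inr h1
  have h1 := relations_splitting L.val ha P hsplit hP hdeg hC s hs r hr g t hl B hB hBc hBk hcond'
    m i hm w hsum hprod' ⟨v, hv⟩ ⟨_, hv'⟩ rfl
  simp only [hw] at h1
  rw [← h1, map_div₀, map_natCast]

end Closed

end Pool.Agent.TateTwo
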