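import Pool.Agent.SylowCM.Comb

/-!
# Relations between the translates of an odd function: odd primes
-/

set_option autoImplicit false

namespace Pool.Agent.TateTwo

open MulAction Pool.Agent.SylowCM

variable {G X : Type*} [Group G] [Finite G] [Fintype X] [MulAction G X] {l k : ℕ}
  [hl : Fact l.Prime]

omit [Finite G] in
/-- A nonzero translation invariant space contains an element whose restriction to the orbit of `H`
is nonzero and invariant under a Sylow subgroup of `H`. -/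
theorem exists_fixed [IsPretransitive G X] (N : Submodule (ZMod l) (X → ZMod l))
    (hN : ∀ v ∈ N, ∀ g : G, (fun x => v (g • x)) ∈ N) (H : Subgroup G) (x₀ : X) (P : Sylow l H)
    {v : X → ZMod l} (hv : v ∈ N) (hv0 : v ≠ 0) :
    ∃ b ∈ N, (∀ (p : P), ∀ x ∈ orbit H x₀, b (((p : H) : G) • x) = b x) ∧
      ∃ x ∈ orbit H x₀, b x ≠ 0 := by
  classical
  obtain ⟨x₁, hx₁⟩ : ∃ x, v x ≠ 0 := by
    by_contra hcon
    push Not at hcon
    exact hv0 (funext hcon)
  obtain ⟨g, hg⟩ := MulAction.exists_smul_eq G x₀ x₁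
  set Y : Set X := orbit H x₀ with hY
  set W : Submodule (ZMod l) (X → ZMod l) := N.map (res Y) with hW
  have hYst : ∀ (p : H) (x : X), ((p : G)⁻¹ • x) ∈ Y ↔ x ∈ Y := by
    intro p x
    constructor
    · rintro ⟨q, hq⟩
      refine ⟨p * q, ?_⟩
      change ((p : G) * (q : G)) • x₀ = x
      change (q : G) • x₀ = _ at hq
      rw [mul_smul, hq, smul_inv_smul]
    · rintro ⟨q, rfl⟩
      refine ⟨p⁻¹ * q, ?_⟩
      change ((p : G)⁻¹ * (q : G)) • x₀ = (p : G)⁻¹ • (q : G) • x₀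
      rw [mul_smul]
  have hst : ∀ (p : P) (w : W), (fun x => (w : X → ZMod l) (((p : H) : G)⁻¹ • x)) ∈ W := by
    rintro p ⟨_, v', hv', rfl⟩
    refine ⟨fun x => v' (((p : H) : G)⁻¹ • x), hN v' hv' _, ?_⟩
    funext x
    by_cases hx : x ∈ Y
    · rw [res_apply_of_mem hx]
      exact (res_apply_of_mem ((hYst p x).mpr hx)).symm
    · rw [res_apply_of_notMem hx]
      exact (res_apply_of_notMem fun h => hx ((hYst p x).mp h)).symm
  let act : MulAction P W :=
    { smul := fun p w => ⟨_, hst p w⟩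
      one_smul := by
        intro w
        apply Subtype.ext
        funext x
        change (w : X → ZMod l) ((((1 : P) : H) : G)⁻¹ • x) = _
        simp
      mul_smul := by
        intro p q w
        apply Subtype.ext
        funext x
        change (w : X → ZMod l) ((((p * q : P) : H) : G)⁻¹ • x) =
          (w : X → ZMod l) (((q : H) : G)⁻¹ • ((p : H) : G)⁻¹ • x)
        simp [mul_smul] }
  have hact : ∀ (p : P) (w : W) (x : X),
      ((p • w : W) : X → ZMod l) x = (w : X → ZMod l) (((p : H) : G)⁻¹ • x) := fun _ _ _ => rfl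
  have hx₀Y : x₀ ∈ Y := mem_orbit_self x₀
  set w₀ : W := ⟨res Y (fun x => v (g • x)), _, hN v hv g, rfl⟩ with hw₀
  have hw₀ne : w₀ ≠ 0 := by
    intro h0
    have h1 := congrFun (congrArg Subtype.val h0) x₀
    change res Y (fun x => v (g • x)) x₀ = 0 at h1
    rw [res_apply_of_mem hx₀Y, hg] at h1
    exact hx₁ h1
  have hcard : l ∣ Nat.card W := by
    have h1 : addOrderOf w₀ ∣ l := by
      apply addOrderOf_dvd_of_nsmul_eq_zero
      apply Subtype.ext
      funext x
      change l • ((w₀ : X → ZMod l) x) = 0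
      rw [nsmul_eq_mul, CharP.cast_eq_zero, zero_mul]
    rcases (Nat.dvd_prime hl.1).mp h1 with h2 | h2
    · rw [AddMonoid.addOrderOf_eq_one_iff] at h2
      exact absurd h2 hw₀ne
    · exact (dvd_of_eq h2.symm).trans (addOrderOf_dvd_natCard w₀)
  have hfix0 : (0 : W) ∈ fixedPoints P W := by
    intro p
    apply Subtype.ext
    funext x
    rfl
  have hfinW : Finite W := inferInstance
  obtain ⟨b, hb, hb0⟩ := P.isPGroup'.exists_fixed_point_of_prime_dvd_card_of_fixed_point W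
    hcard hfix0
  obtain ⟨v', hv', hbv⟩ := b.2
  refine ⟨v', hv', ?_, ?_⟩
  · intro p x hx
    have hpx : ((p : H) : G) • x ∈ Y := by
      have h1 := (hYst (p : H)⁻¹ x).mpr hx
      simpa using h1
    have h3 := congrFun (congrArg Subtype.val (hb p)) ((((p : H) : G)) • x)
    rw [hact, inv_smul_smul] at h3
    rw [← res_apply_of_mem (v := v') hpx, ← res_apply_of_mem (v := v') hx, hbv]
    exact h3.symm
  · by_contra hcon
    push Not at hcon
    apply hb0
    apply Subtype.ext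
    funext x
    change (0 : ZMod l) = (b : X → ZMod l) x
    rw [← hbv]
    by_cases hx : x ∈ Y
    · rw [res_apply_of_mem hx, hcon x hx]
    · rw [res_apply_of_notMem hx]

/-- The orbit of a Sylow `l`-subgroup in a set of `2 l ^ k` points with an involution. -/
theorem orbit_odd {Γ : Type*} [Group Γ] [Finite Γ] [MulAction Γ X] (hl2 : l ≠ 2) (c : X → X)
    (hc : ∀ x, c (c x) = x) (hne : ∀ x, c x ≠ x) (hcG : ∀ (g : Γ) (x : X), g • c x = c (g • x))
    (x₀ : X) (hB : (orbit Γ x₀).ncard = 2 * l ^ k) (hcB : ∀ x ∈ orbit Γ x₀, c x ∈ orbit Γ x₀)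
    (P : Sylow l Γ) :
    (∀ x ∈ orbit P x₀, c x ∉ orbit P x₀) ∧
      ∀ x ∈ orbit Γ x₀, x ∈ orbit P x₀ ∨ c x ∈ orbit P x₀ := by
  have hdisj : ∀ x ∈ orbit P x₀, c x ∉ orbit P x₀ := by
    rintro _ ⟨p, rfl⟩ ⟨p', hp'⟩
    have h1 : (p : Γ)⁻¹ • (p' : Γ) • x₀ = c x₀ := by
      change (p' : Γ) • x₀ = c ((p : Γ) • x₀) at hp'
      rw [hp', ← hcG, inv_smul_smul]
    set h : P := p⁻¹ * p' with hh
    have h2 : (h : Γ) • x₀ = c x₀ := by
      rw [← h1, ← mul_smul]
      rfl
    have h3 : (h : Γ) • (h : Γ) • x₀ = x₀ := by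
      rw [h2, hcG, h2, hc]
    have hodd : Odd (orderOf h) := by
      obtain ⟨n, hn⟩ := (IsPGroup.iff_orderOf.mp P.isPGroup') h
      rw [hn]
      exact Odd.pow (hl.1.odd_of_ne_two hl2)
    obtain ⟨n, hn⟩ := hodd
    have h4 : ∀ m : ℕ, ((h : Γ) ^ (2 * m)) • x₀ = x₀ := by
      intro m
      induction m with
      | zero => simp
      | succ m ih =>
        rw [mul_add, pow_add, mul_smul, mul_one, pow_two, mul_smul, h3, ih]
    have h5 : (h : Γ) • x₀ = x₀ := by
      have h6 := h4 (n + 1)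
      have h7 : h ^ (2 * (n + 1)) = h := by
        have : 2 * (n + 1) = orderOf h + 1 := by omega
        rw [this, pow_succ, pow_orderOf_eq_one, one_mul]
      have h8 : (h : Γ) ^ (2 * (n + 1)) = (h : Γ) := by
        have := congrArg (Subtype.val) h7
        simpa using this
      rw [h8] at h6
      exact h6
    rw [h5] at h2
    exact hne x₀ h2.symm
  refine ⟨hdisj, ?_⟩
  -- counting
  have h1 : (stabilizer Γ x₀).index = 2 * l ^ k := by
    rw [index_stabilizer, hB]
  have h2 : (stabilizer P x₀).index = (orbit P x₀).ncard := index_stabilizer P x₀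
  have h3 : (stabilizer P x₀) = (stabilizer Γ x₀).subgroupOf (P : Subgroup Γ) := by
    ext p
    rfl
  have h4 : (stabilizer P x₀).index = (stabilizer Γ x₀).relIndex (P : Subgroup Γ) := by
    rw [h3]
    rfl
  have h5 := Subgroup.relIndex_mul_index (H := stabilizer Γ x₀ ⊓ (P : Subgroup Γ))
    (K := (P : Subgroup Γ)) inf_le_right
  have h6 := Subgroup.relIndex_mul_index (H := stabilizer Γ x₀ ⊓ (P : Subgroup Γ))
    (K := stabilizer Γ x₀) inf_le_left
  rw [Subgroup.inf_relIndex_right] at h5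
  have h7 : l ^ k ∣ (stabilizer Γ x₀).relIndex (P : Subgroup Γ) * (P : Subgroup Γ).index := by
    rw [h5, ← h6, h1]
    exact dvd_mul_of_dvd_right (dvd_mul_left _ _) _
  have h8 : l ^ k ∣ (stabilizer Γ x₀).relIndex (P : Subgroup Γ) :=
    (hl.1.coprime_pow_of_not_dvd P.not_dvd_index).symm.dvd_of_dvd_mul_right h7
  have h9 : l ^ k ≤ (orbit P x₀).ncard := by
    rw [← h2, h4]
    refine Nat.le_of_dvd ?_ h8
    rw [← h4]
    exact Nat.pos_of_ne_zero Subgroup.FiniteIndex.index_ne_zero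
  have hinj : Function.Injective c := fun a b h => by rw [← hc a, ← hc b, h]
  have hsub : orbit P x₀ ⊆ orbit Γ x₀ := by
    rintro _ ⟨p, rfl⟩
    exact ⟨(p : Γ), rfl⟩
  have hsub2 : c '' orbit P x₀ ⊆ orbit Γ x₀ := by
    rintro _ ⟨x, hx, rfl⟩
    exact hcB _ (hsub hx)
  have hdis2 : Disjoint (orbit P x₀) (c '' orbit P x₀) := by
    rw [Set.disjoint_left]
    rintro _ hx ⟨y, hy, rfl⟩
    exact hdisj y hy hx
  have h10 : (orbit P x₀ ∪ c '' orbit P x₀).ncard = 2 * (orbit P x₀).ncard := by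
    rw [Set.ncard_union_eq hdis2 (Set.toFinite _) (Set.toFinite _),
      Set.ncard_image_of_injective _ hinj, two_mul]
  have h11 : orbit P x₀ ∪ c '' orbit P x₀ = orbit Γ x₀ := by
    refine Set.eq_of_subset_of_ncard_le (Set.union_subset hsub hsub2) ?_ (Set.toFinite _)
    rw [hB, h10]
    omega
  intro x hx
  rw [← h11] at hx
  rcases hx with h | ⟨y, hy, rfl⟩
  · exact Or.inl h
  · right
    rw [hc]
    exact hy

/-- **Vanishing of odd relations modulo an odd prime.** -/
theorem odd_rel_mod [IsPretransitive G X] (hl2 : l ≠ 2) (c : X → X) (hc : ∀ x, c (c x) = x)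
    (hne : ∀ x, c x ≠ x) (hcG : ∀ (g : G) (x : X), g • c x = c (g • x)) (H : Subgroup G) (x₀ : X)
    (hcB : ∀ x ∈ orbit H x₀, c x ∈ orbit H x₀) (hB : (orbit H x₀).ncard = 2 * l ^ k)
    (f : X → ZMod l) (hf : ∀ x, f (c x) = -f x) (hf0 : ∀ x ∉ orbit H x₀, f x = 0)
    (hC : ∀ C : Finset X, (∀ x ∈ C, x ∈ orbit H x₀) → (∀ x ∈ orbit H x₀, x ∈ C ↔ c x ∉ C) →
      (∃ Q : Subgroup G, IsPGroup l Q ∧ ∀ x, x ∈ C ↔ x ∈ orbit Q x₀) → ∑ x ∈ C, f x ≠ 0)
    (v : X → ZMod l) (hv : ∀ x, v (c x) = -v x) (hrel : ∀ g : G, ∑ x, v x * f (g • x) = 0) :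
    v = 0 := by
  classical
  by_contra hne0
  let N : Submodule (ZMod l) (X → ZMod l) := rel (G := G) f ⊓
    { carrier := {v | ∀ x, v (c x) = -v x}
      add_mem' := by
        intro a b ha hb x
        simp only [Pi.add_apply, ha x, hb x]
        ring
      zero_mem' := by
        intro x
        simp
      smul_mem' := by
        intro a b hb x
        simp only [Pi.smul_apply, hb x, smul_neg] }
  have hN : ∀ v ∈ N, ∀ g : G, (fun x => v (g • x)) ∈ N := by
    rintro v ⟨h1, h2⟩ g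
    refine ⟨translate_mem h1 g, fun x => ?_⟩
    change v (g • c x) = -v (g • x)
    rw [hcG]
    exact h2 _
  obtain ⟨P⟩ : Nonempty (Sylow l H) := inferInstance
  obtain ⟨b, ⟨hb1, hb2⟩, hb3, x₁, hx₁, hbx₁⟩ := exists_fixed N hN H x₀ P (v := v) ⟨hrel, hv⟩ hne0
  have hb2' : ∀ x, b (c x) = -b x := hb2
  obtain ⟨hdisj, hcov⟩ := orbit_odd (Γ := H) hl2 c hc hne (fun g x => hcG g x) x₀ hB hcB P
  have hx₀ : x₀ ∈ orbit H x₀ := mem_orbit_self x₀
  have hconst : ∀ x ∈ orbit P x₀, b x = b x₀ := by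
    rintro _ ⟨p, rfl⟩
    exact hb3 p x₀ hx₀
  have hb0 : b x₀ ≠ 0 := by
    intro h0
    apply hbx₁
    rcases hcov x₁ hx₁ with h | h
    · rw [hconst x₁ h, h0]
    · have h1 := hb2' x₁
      rw [hconst _ h, h0] at h1
      rw [← neg_eq_zero, ← h1]
  set C : Finset X := Finset.univ.filter (fun x => x ∈ orbit P x₀) with hCdef
  have hCm : ∀ x, x ∈ C ↔ x ∈ orbit P x₀ := by
    intro x
    simp [hCdef]
  have hsub : orbit P x₀ ⊆ orbit H x₀ := by
    rintro _ ⟨p, rfl⟩
    exact ⟨(p : H), rfl⟩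
  have hsum := hC C (fun x hx => hsub ((hCm x).mp hx)) (by
    intro x hx
    rw [hCm, hCm]
    constructor
    · exact hdisj x
    · intro h
      exact (hcov x hx).resolve_right h) (by
    refine ⟨(P : Subgroup H).map H.subtype, P.isPGroup'.map _, fun x => ?_⟩
    rw [hCm]
    constructor
    · rintro ⟨p, rfl⟩
      exact ⟨⟨((p : H) : G), (p : H), p.2, rfl⟩, rfl⟩
    · rintro ⟨⟨_, ⟨p, hp, rfl⟩⟩, rfl⟩
      exact ⟨⟨p, hp⟩, rfl⟩)
  have h1 := hb1 1
  simp only [one_smul] at h1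
  have h2 : ∑ x, b x * f x = ∑ x ∈ C, b x * f x + ∑ x ∈ C, b (c x) * f (c x) := by
    have h3 : ∑ x ∈ C, b (c x) * f (c x) = ∑ x ∈ C.image c, b x * f x := by
      rw [Finset.sum_image]
      intro x _ y _ h
      rw [← hc x, ← hc y, h]
    have h4 : Disjoint C (C.image c) := by
      rw [Finset.disjoint_left]
      intro x hx hx'
      obtain ⟨y, hy, rfl⟩ := Finset.mem_image.mp hx'
      exact hdisj y ((hCm y).mp hy) ((hCm _).mp hx)
    rw [h3, ← Finset.sum_union h4]
    symm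
    refine Finset.sum_subset (Finset.subset_univ _) ?_
    intro x _ hx
    rw [hf0 x, mul_zero]
    intro hxo
    apply hx
    rw [Finset.mem_union]
    rcases hcov x hxo with h | h
    · exact Or.inl ((hCm x).mpr h)
    · exact Or.inr (Finset.mem_image.mpr ⟨c x, (hCm _).mpr h, hc x⟩)
  have h3 : ∑ x ∈ C, b (c x) * f (c x) = ∑ x ∈ C, b x * f x := by
    refine Finset.sum_congr rfl fun x _ => ?_
    rw [hb2', hf]
    ring
  have h4 : ∑ x ∈ C, b x * f x = b x₀ * ∑ x ∈ C, f x := by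
    rw [Finset.mul_sum]
    refine Finset.sum_congr rfl fun x hx => ?_
    rw [hconst x ((hCm x).mp hx)]
  rw [h2, h3, h4, ← two_mul] at h1
  have h5 : (2 : ZMod l) ≠ 0 := by
    intro h6
    have h7 : ((2 : ℕ) : ZMod l) = 0 := by
      push_cast
      exact h6
    have h8 := (ZMod.natCast_eq_zero_iff 2 l).mp h7
    exact hl2 ((Nat.prime_dvd_prime_iff_eq hl.1 Nat.prime_two).mp h8)
  exact (mul_ne_zero h5 (mul_ne_zero hb0 hsum)) h1

end Pool.Agent.TateTwo
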