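import Pool.Agent.TateTwo.Comb
import Pool.Agent.TateTwo.OddPrime

/-!
# Relations between the translates of an odd function: all primes
-/

set_option autoImplicit false

namespace Pool.Agent.TateTwo

open MulAction Pool.Agent.SylowCM

variable {G X : Type*} [Group G] [Finite G] [Fintype X] [MulAction G X] {l k : ℕ}
  [hl : Fact l.Prime]

/-- **Vanishing of odd relations.** -/
theorem int_rel [IsPretransitive G X] (c : X → X) (hc : ∀ x, c (c x) = x)
    (hne : ∀ x, c x ≠ x) (hcG : ∀ (g : G) (x : X), g • c x = c (g • x)) (H : Subgroup G) (x₀ : X)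
    (hcB : ∀ x ∈ orbit H x₀, c x ∈ orbit H x₀) (hB : (orbit H x₀).ncard = 2 * l ^ k)
    (f : X → ℤ) (hf : ∀ x, f (c x) = -f x)
    (hcond : ((∀ x ∉ orbit H x₀, (l : ℤ) ∣ f x) ∧
      ∀ C : Finset X, (∀ x ∈ C, x ∈ orbit H x₀) → (∀ x ∈ orbit H x₀, x ∈ C ↔ c x ∉ C) →
        (l ≠ 2 → ∃ Q : Subgroup G, IsPGroup l Q ∧ ∀ x, x ∈ C ↔ x ∈ orbit Q x₀) →
        ¬ (l : ℤ) ∣ ∑ x ∈ C, f x) ∨
      (l = 2 ∧ (∀ x ∉ orbit H x₀, Odd (f x)) ∧
        {x | x ∈ orbit H x₀ ∧ ¬ Odd (f x)}.ncard % 4 = 2 ∧ 4 ∣ Fintype.card X))
    (n : X → ℤ) (hn : ∀ x, n (c x) = -n x) (hrel : ∀ g : G, ∑ x, n x * f (g • x) = 0) :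
    n = 0 := by
  classical
  rcases hcond with ⟨h1, h2⟩ | ⟨hl2, h1, h2, h3⟩
  · by_cases hl2 : l = 2
    · subst hl2
      -- the set of odd values
      set U : Set X := {x | Odd (f x)} with hU
      have hUB : U ⊆ orbit H x₀ := by
        intro x hx
        by_contra hcon
        have h3 := h1 x hcon
        exact (Int.not_even_iff_odd.mpr hx) (even_iff_two_dvd.mpr h3)
      have hUc : ∀ x ∈ U, c x ∈ U := by
        intro x hx
        rw [hU, Set.mem_ofPred_eq] at hx ⊢
        rw [hf]
        exact hx.neg
      have hUcard := ncard_pairs hc hne U hUc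
      set C : Finset X := Finset.univ.filter fun x => x ∈ orbit H x₀ ∧
        (Quotient.mk (pairs c hc) x).out = x with hC
      have hmemC : ∀ x, x ∈ C ↔ x ∈ orbit H x₀ ∧ (Quotient.mk (pairs c hc) x).out = x := by
        intro x
        simp [hC]
      have hmk : ∀ x, Quotient.mk (pairs c hc) (c x) = Quotient.mk (pairs c hc) x := fun x =>
        pairs_mk.mpr (Or.inr (hc x).symm)
      have h4 := h2 C (fun x hx => ((hmemC x).mp hx).1) (by
        intro x hx
        rw [hmemC, hmemC, hmk]
        constructor
        · rintro ⟨-, h5⟩ ⟨-, h6⟩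
          rw [h5] at h6
          exact hne x h6.symm
        · intro h5
          refine ⟨hx, ?_⟩
          rcases pairs_out (hc := hc) x with h6 | h6
          · exact h6
          · exact absurd ⟨hcB x hx, h6⟩ h5)
        (fun h5 => absurd rfl h5)
      have hcount : {y : Quotient (pairs c hc) | y.out ∈ U}.ncard =
          (C.filter fun x => Odd (f x)).card := by
        rw [← Set.ncard_coe_finset]
        have h5 : ((C.filter fun x => Odd (f x) : Finset X) : Set X) =
            Quotient.out '' {y : Quotient (pairs c hc) | y.out ∈ U} := by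
          ext x
          rw [Finset.mem_coe, Finset.mem_filter, hmemC]
          constructor
          · rintro ⟨⟨h6, h7⟩, h8⟩
            exact ⟨Quotient.mk (pairs c hc) x, by rw [Set.mem_ofPred_eq, h7]; exact h8, h7⟩
          · rintro ⟨y, hy, rfl⟩
            exact ⟨⟨hUB hy, by rw [Quotient.out_eq]⟩, hy⟩
        rw [h5, Set.ncard_image_of_injective _ Quotient.out_injective]
      have hparity : ((∑ x ∈ C, f x : ℤ) : ZMod 2) =
          (((C.filter fun x => Odd (f x)).card : ℕ) : ZMod 2) := by
        push_cast
        rw [Finset.card_filter]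
        push_cast
        refine Finset.sum_congr rfl fun x _ => ?_
        split_ifs with h5
        · exact ZMod.intCast_eq_one_iff_odd.mpr h5
        · exact (ZMod.intCast_eq_zero_iff_even).mpr (Int.not_odd_iff_even.mp h5)
      have hodd : ¬ 2 ∣ (C.filter fun x => Odd (f x)).card := by
        intro h5
        apply h4
        have h6 : ((∑ x ∈ C, f x : ℤ) : ZMod 2) = 0 := by
          rw [hparity]
          exact (ZMod.natCast_eq_zero_iff _ 2).mpr h5
        exact (ZMod.intCast_zmod_eq_zero_iff_dvd _ 2).mp h6
      refine odd_rel_eq_zero c hc hne hcG H x₀ (k := k) hcB (by rw [hB, pow_succ']) f hf U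
        (Or.inl rfl) hUB ?_ n hn hrel
      rw [hUcard, hcount]
      omega
    · -- odd primes
      have key : ∀ n : X → ℤ, (∀ x, n (c x) = -n x) → (∀ g : G, ∑ x, n x * f (g • x) = 0) →
          ∀ x, (l : ℤ) ∣ n x := by
        intro n hn hrel
        have h3 := odd_rel_mod (k := k) hl2 c hc hne hcG H x₀ hcB hB
          (fun x => ((f x : ℤ) : ZMod l)) (fun x => by rw [hf]; push_cast; rfl)
          (fun x hx => (ZMod.intCast_zmod_eq_zero_iff_dvd _ l).mpr (h1 x hx))
          (fun C hC1 hC2 hC3 h4 => h2 C hC1 hC2 (fun _ => hC3) (by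
            have h5 : ((∑ x ∈ C, f x : ℤ) : ZMod l) = 0 := by
              push_cast
              exact h4
            exact (ZMod.intCast_zmod_eq_zero_iff_dvd _ l).mp h5))
          (fun x => ((n x : ℤ) : ZMod l)) (fun x => by rw [hn]; push_cast; rfl) (by
            intro g
            have h4 := congrArg (Int.cast : ℤ → ZMod l) (hrel g)
            push_cast at h4
            exact h4)
        intro x
        exact (ZMod.intCast_zmod_eq_zero_iff_dvd _ l).mp (congrFun h3 x)
      have key2 : ∀ m : ℕ, ∀ x, ((l : ℤ) ^ m) ∣ n x := by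
        intro m
        induction m with
        | zero => intro x; simp
        | succ m ih =>
          choose n' hn' using ih
          have h0 : ((l : ℤ) ^ m) ≠ 0 := pow_ne_zero _ (by exact_mod_cast hl.1.ne_zero)
          have h3 := key n' (by
            intro x
            have h4 := hn x
            rw [hn' (c x), hn' x] at h4
            have h5 : (l : ℤ) ^ m * (n' (c x) + n' x) = 0 := by linarith
            have h6 := (mul_eq_zero.mp h5).resolve_left h0
            linarith) (by
            intro g
            have h4 := hrel g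
            have h5 : ∑ x, n x * f (g • x) = (l : ℤ) ^ m * ∑ x, n' x * f (g • x) := by
              rw [Finset.mul_sum]
              refine Finset.sum_congr rfl fun x _ => ?_
              rw [hn' x, mul_assoc]
            rw [h5] at h4
            exact (mul_eq_zero.mp h4).resolve_left h0)
          intro x
          rw [hn' x, pow_succ]
          exact mul_dvd_mul_left _ (h3 x)
      funext x
      have h3 := key2 (n x).natAbs x
      apply Int.eq_zero_of_abs_lt_dvd h3
      have h4 : (n x).natAbs < l ^ (n x).natAbs := Nat.lt_pow_self hl.1.one_lt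
      rw [Int.abs_eq_natAbs]
      exact_mod_cast h4
  · subst hl2
    refine odd_rel_eq_zero c hc hne hcG H x₀ (k := k) hcB (by rw [hB, pow_succ']) f hf
      {x | ¬ Odd (f x)} (Or.inr ⟨rfl, h3⟩) ?_ ?_ n hn hrel
    · intro x hx
      by_contra hcon
      exact hx (h1 x hcon)
    · have h4 : {x | ¬ Odd (f x)} = {x | x ∈ orbit H x₀ ∧ ¬ Odd (f x)} := by
        ext x
        constructor
        · intro hx
          refine ⟨?_, hx⟩
          by_contra hcon
          exact hx (h1 x hcon)
        · rintro ⟨-, hx⟩
          exact hx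
      rw [h4]
      exact h2

end Pool.Agent.TateTwo
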