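import Pool.Agent.SylowCM.Comb

/-!
# Relations between the translates of an odd function: the prime two
-/

set_option autoImplicit false

namespace Pool.Agent.TateTwo

open MulAction Pool.Agent.SylowCM

section ModTwo

variable {G Y : Type*} [Group G] [Finite G] [Fintype Y] [MulAction G Y] {k : ℕ}

theorem mod_two [IsPretransitive G Y] (H : Subgroup G) (y₀ : Y)
    (hk : Nat.card (orbit H y₀) = 2 ^ k) {f u v : Y → ZMod 2}
    (hu : u = f ∨ (u = 1 - f ∧ ((Fintype.card Y : ℕ) : ZMod 2) = 0))
    (hsupp : ∀ y ∉ orbit H y₀, u y = 0) (hs : ∑ y, u y ≠ 0) (hv : v ∈ rel (G := G) f) :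
    v = 0 := by
  have h2 : Fact (Nat.Prime 2) := ⟨Nat.prime_two⟩
  rcases hu with rfl | ⟨rfl, hcard⟩
  · exact rel_eq_zero H y₀ hk hsupp hs hv
  · -- relations with zero sum vanish
    have key : ∀ w ∈ rel (G := G) f, ∑ y, w y = 0 → w = 0 := by
      intro w hw hw0
      refine rel_eq_zero (G := G) (k := k) H y₀ hk (f := 1 - f) hsupp hs ?_
      intro g
      have h3 := hw g
      have h4 : ∑ x, w x * (1 - f) (g • x) = ∑ x, w x - ∑ x, w x * f (g • x) := by
        rw [← Finset.sum_sub_distrib]
        refine Finset.sum_congr rfl fun x _ => ?_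
        simp only [Pi.sub_apply, Pi.one_apply]
        ring
      rw [h4, hw0, h3, sub_zero]
    have hinv : ∀ (g : G) (y : Y), v (g • y) = v y := by
      intro g y
      have h3 : (fun x => v (g • x)) - v ∈ rel (G := G) f :=
        (rel (G := G) f).sub_mem (translate_mem hv g) hv
      have h4 := key _ h3 (by
        simp only [Pi.sub_apply, Finset.sum_sub_distrib]
        rw [sub_eq_zero]
        exact Fintype.sum_equiv (MulAction.toPerm g) _ _ fun x => rfl)
      have h5 := congrFun h4 y
      exact sub_eq_zero.mp h5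
    have hconst : ∀ y, v y = v y₀ := by
      intro y
      obtain ⟨g, rfl⟩ := MulAction.exists_smul_eq G y₀ y
      exact hinv g y₀
    refine key v hv ?_
    rw [Finset.sum_congr rfl fun y _ => hconst y, Finset.sum_const, Finset.card_univ,
      nsmul_eq_mul, hcard, zero_mul]

end ModTwo

section Pairs

variable {X : Type*} [Fintype X] {G : Type*} [Group G] [Finite G] [MulAction G X]

/-- The equivalence relation `x ∼ c x`. -/
def pairs (c : X → X) (hc : ∀ x, c (c x) = x) : Setoid X where
  r x y := y = x ∨ y = c x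
  iseqv :=
    { refl := fun _ => Or.inl rfl
      symm := by
        rintro x y (rfl | rfl)
        · exact Or.inl rfl
        · exact Or.inr (hc x).symm
      trans := by
        rintro x y z (rfl | rfl) (rfl | rfl)
        · exact Or.inl rfl
        · exact Or.inr rfl
        · exact Or.inr rfl
        · exact Or.inl (hc x) }

omit [Fintype X] in
theorem pairs_mk {c : X → X} {hc : ∀ x, c (c x) = x} {x y : X} :
    (Quotient.mk (pairs c hc) x = Quotient.mk (pairs c hc) y) ↔ (y = x ∨ y = c x) :=
  ⟨fun h => Quotient.exact h, fun h => Quotient.sound h⟩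

omit [Fintype X] in
theorem pairs_out {c : X → X} {hc : ∀ x, c (c x) = x} (x : X) :
    (Quotient.mk (pairs c hc) x).out = x ∨ (Quotient.mk (pairs c hc) x).out = c x := by
  have h : Quotient.mk (pairs c hc) x = Quotient.mk (pairs c hc) (Quotient.mk (pairs c hc) x).out :=
    (Quotient.out_eq _).symm
  exact pairs_mk.mp h

open Classical in
theorem sum_pairs {c : X → X} (hc : ∀ x, c (c x) = x) (hne : ∀ x, c x ≠ x)
    {R : Type*} [CommRing R] (F : X → R) (hF : ∀ x, F (c x) = F x) :
    ∑ x, F x = 2 * ∑ y : Quotient (pairs c hc), F y.out := by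
  rw [Finset.mul_sum, ← Finset.sum_fiberwise (s := Finset.univ)
    (g := fun x : X => Quotient.mk (pairs c hc) x) (f := F)]
  refine Finset.sum_congr rfl fun y _ => ?_
  have h1 : Finset.univ.filter (fun x : X => Quotient.mk (pairs c hc) x = y) =
      {y.out, c y.out} := by
    ext x
    simp only [Finset.mem_filter, Finset.mem_univ, true_and, Finset.mem_insert,
      Finset.mem_singleton]
    constructor
    · intro h
      rcases pairs_out (hc := hc) x with h2 | h2
      · rw [h] at h2
        exact Or.inl h2.symm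
      · rw [h] at h2
        right
        rw [h2, hc]
    · rintro (h | h)
      · rw [h, Quotient.out_eq]
      · rw [h]
        have h3 : Quotient.mk (pairs c hc) (c y.out) = Quotient.mk (pairs c hc) y.out :=
          pairs_mk.mpr (Or.inr (hc _).symm)
        rw [h3, Quotient.out_eq]
  rw [h1, Finset.sum_pair (fun h => hne y.out h.symm), hF]
  ring

theorem ncard_pairs {c : X → X} (hc : ∀ x, c (c x) = x) (hne : ∀ x, c x ≠ x) (C : Set X)
    (hC : ∀ x ∈ C, c x ∈ C) :
    C.ncard = 2 * {y : Quotient (pairs c hc) | y.out ∈ C}.ncard := by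
  classical
  have hC' : ∀ x, c x ∈ C ↔ x ∈ C := fun x =>
    ⟨fun h => by have := hC _ h; rwa [hc] at this, hC x⟩
  have h1 := sum_pairs hc hne (R := ℤ) (fun x => if x ∈ C then 1 else 0) (by
    intro x
    simp only [hC'])
  have h2 : ∑ x : X, (if x ∈ C then (1 : ℤ) else 0) = C.ncard := by
    rw [Finset.sum_boole, Set.ncard_eq_toFinset_card']
    congr 2
    ext x
    simp
  have h3 : ∑ y : Quotient (pairs c hc), (if y.out ∈ C then (1 : ℤ) else 0) =
      {y : Quotient (pairs c hc) | y.out ∈ C}.ncard := by
    rw [Finset.sum_boole, Set.ncard_eq_toFinset_card']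
    congr 2
    ext x
    simp
  rw [h2, h3] at h1
  exact_mod_cast h1

/-- **Vanishing of odd relations.** -/
theorem odd_rel_eq_zero [IsPretransitive G X] (c : X → X) (hc : ∀ x, c (c x) = x)
    (hne : ∀ x, c x ≠ x) (hcG : ∀ (g : G) (x : X), g • c x = c (g • x)) (H : Subgroup G) (x₀ : X)
    {k : ℕ} (hcB : ∀ x ∈ orbit H x₀, c x ∈ orbit H x₀) (hB : (orbit H x₀).ncard = 2 ^ (k + 1))
    (f : X → ℤ) (hf : ∀ x, f (c x) = -f x) (U : Set X)
    (hU : U = {x | Odd (f x)} ∨ (U = {x | ¬ Odd (f x)} ∧ 4 ∣ Fintype.card X))
    (hUB : U ⊆ orbit H x₀) (hU2 : U.ncard % 4 = 2) (n : X → ℤ) (hn : ∀ x, n (c x) = -n x)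
    (hrel : ∀ g : G, ∑ x, n x * f (g • x) = 0) : n = 0 := by
  classical
  set Q := Quotient (pairs c hc) with hQ
  let act : MulAction G Q :=
    { smul := fun g => Quotient.map (fun x => g • x) (by
        rintro x y (h | h)
        · exact Or.inl (by rw [h])
        · exact Or.inr (by rw [h, hcG]))
      one_smul := by
        intro y
        induction y using Quotient.inductionOn with
        | _ x => exact congrArg _ (one_smul G x)
      mul_smul := by
        intro g h y
        induction y using Quotient.inductionOn with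
        | _ x => exact congrArg _ (mul_smul g h x) }
  have hact : ∀ (g : G) (x : X), g • (Quotient.mk (pairs c hc) x : Q) =
      Quotient.mk (pairs c hc) (g • x) := fun _ _ => rfl
  have htrans : IsPretransitive G Q := by
    refine ⟨fun y z => ?_⟩
    induction y using Quotient.inductionOn with
    | _ x =>
      induction z using Quotient.inductionOn with
      | _ x' =>
        obtain ⟨g, hg⟩ := MulAction.exists_smul_eq G x x'
        exact ⟨g, by rw [hact, hg]⟩
  set y₀ : Q := Quotient.mk (pairs c hc) x₀ with hy₀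
  have horb : ∀ x : X, (Quotient.mk (pairs c hc) x : Q) ∈ orbit H y₀ ↔ x ∈ orbit H x₀ := by
    intro x
    constructor
    · rintro ⟨h, hh⟩
      have h1 : Quotient.mk (pairs c hc) ((h : G) • x₀) = Quotient.mk (pairs c hc) x := hh
      rcases pairs_mk.mp h1 with h2 | h2
      · rw [h2]
        exact ⟨h, rfl⟩
      · rw [h2]
        exact hcB _ ⟨h, rfl⟩
    · rintro ⟨h, rfl⟩
      exact ⟨h, rfl⟩
  have hmk : ∀ y : Q, Quotient.mk (pairs c hc) y.out = y := fun y => Quotient.out_eq y
  have horbcard : Nat.card (orbit H y₀) = 2 ^ k := by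
    have h1 := ncard_pairs hc hne (orbit H x₀) hcB
    have h2 : {y : Quotient (pairs c hc) | y.out ∈ orbit H x₀} = orbit H y₀ := by
      ext y
      rw [Set.mem_ofPred_eq, ← horb, hmk]
    rw [h2, hB, pow_succ'] at h1
    rw [Nat.card_coe_set_eq]
    omega
  have hUc : ∀ x ∈ U, c x ∈ U := by
    intro x hx
    rcases hU with h | ⟨h, -⟩
    · rw [h, Set.mem_ofPred_eq] at hx ⊢
      rw [hf]
      exact hx.neg
    · rw [h, Set.mem_ofPred_eq] at hx ⊢
      rw [hf, odd_neg]
      exact hx
  have hUc' : ∀ x, c x ∈ U ↔ x ∈ U := fun x =>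
    ⟨fun h => by have := hUc _ h; rwa [hc] at this, hUc x⟩
  have hparity : ∀ a : ℤ, ((a : ℤ) : ZMod 2) = if Odd a then 1 else 0 := by
    intro a
    split_ifs with h
    · exact ZMod.intCast_eq_one_iff_odd.mpr h
    · exact (ZMod.intCast_eq_zero_iff_even).mpr (Int.not_odd_iff_even.mp h)
  -- functions on pairs
  set u : Q → ZMod 2 := fun y => if y.out ∈ U then 1 else 0 with hu
  set fb : Q → ZMod 2 := fun y => ((f y.out : ℤ) : ZMod 2) with hfb
  have hfb' : ∀ x, fb (Quotient.mk (pairs c hc) x) = ((f x : ℤ) : ZMod 2) := by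
    intro x
    simp only [hfb]
    rcases pairs_out (hc := hc) x with h | h
    · rw [h]
    · rw [h, hf]
      push_cast
      exact ZMod.neg_eq_self_mod_two _
  have huf : u = fb ∨ (u = 1 - fb ∧ ((Fintype.card Q : ℕ) : ZMod 2) = 0) := by
    rcases hU with h | ⟨h, h4⟩
    · left
      funext y
      simp only [hu, hfb, h, Set.mem_ofPred_eq, hparity]
    · right
      constructor
      · funext y
        simp only [hu, hfb, h, Set.mem_ofPred_eq, Pi.sub_apply, Pi.one_apply, hparity]
        by_cases h5 : Odd (f y.out)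
        · rw [if_neg (not_not.mpr h5), if_pos h5, sub_self]
        · rw [if_pos h5, if_neg h5, sub_zero]
      · have h5 := ncard_pairs hc hne Set.univ (fun _ _ => Set.mem_univ _)
        have h6 : {y : Quotient (pairs c hc) | y.out ∈ (Set.univ : Set X)} = Set.univ := by
          ext y
          simp
        rw [h6, Set.ncard_univ, Set.ncard_univ, Nat.card_eq_fintype_card,
          Nat.card_eq_fintype_card] at h5
        obtain ⟨d, hd⟩ := h4
        have h7 : Fintype.card Q = 2 * d := by
          have : 4 * d = 2 * Fintype.card Q := by rw [← hd]; exact h5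
          omega
        rw [h7]
        push_cast
        have h8 : (2 : ZMod 2) = 0 := rfl
        rw [h8, zero_mul]
  have husupp : ∀ y ∉ orbit H y₀, u y = 0 := by
    intro y hy
    simp only [hu]
    apply if_neg
    intro h
    apply hy
    have h1 := (horb y.out).mpr (hUB h)
    rwa [hmk] at h1
  have husum : ∑ y, u y ≠ 0 := by
    have h1 := ncard_pairs hc hne U hUc
    have h2 : ∑ y, u y = (({y : Quotient (pairs c hc) | y.out ∈ U}.ncard : ℕ) : ZMod 2) := by
      simp only [hu]
      rw [Finset.sum_boole, Set.ncard_eq_toFinset_card']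
      congr 2
      ext y
      simp
    rw [h2]
    intro h3
    have h4 := (ZMod.natCast_eq_zero_iff _ 2).mp h3
    omega
  -- the descent
  have key : ∀ n : X → ℤ, (∀ x, n (c x) = -n x) → (∀ g : G, ∑ x, n x * f (g • x) = 0) →
      ∀ x, (2 : ℤ) ∣ n x := by
    intro n hn hrel
    have hnb : ∀ x, ((n (Quotient.mk (pairs c hc) x : Q).out : ℤ) : ZMod 2) =
        ((n x : ℤ) : ZMod 2) := by
      intro x
      rcases pairs_out (hc := hc) x with h | h
      · rw [h]
      · rw [h, hn]
        push_cast
        exact ZMod.neg_eq_self_mod_two _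
    have hv : (fun y : Q => ((n y.out : ℤ) : ZMod 2)) ∈ rel (G := G) fb := by
      intro g
      have h1 := sum_pairs hc hne (fun x => n x * f (g • x)) (by
        intro x
        rw [hn, hcG, hf]
        ring)
      rw [hrel g] at h1
      have h2 : ∑ y : Q, n y.out * f (g • y.out) = 0 := by
        have := h1.symm
        exact (mul_eq_zero.mp this).resolve_left two_ne_zero
      have h3 := congrArg (Int.cast : ℤ → ZMod 2) h2
      push_cast at h3
      rw [← h3]
      refine Finset.sum_congr rfl fun y _ => ?_
      have h4 : g • y = Quotient.mk (pairs c hc) (g • y.out) := by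
        conv_lhs => rw [← hmk y]
        exact hact g _
      rw [h4, hfb']
    have h1 := mod_two H y₀ horbcard huf husupp husum hv
    intro x
    have h2 := congrFun h1 (Quotient.mk (pairs c hc) x)
    change ((n (Quotient.mk (pairs c hc) x : Q).out : ℤ) : ZMod 2) = 0 at h2
    rw [hnb] at h2
    exact (ZMod.intCast_zmod_eq_zero_iff_dvd _ 2).mp h2
  have key2 : ∀ m : ℕ, ∀ x, ((2 : ℤ) ^ m) ∣ n x := by
    intro m
    induction m with
    | zero => intro x; simp
    | succ m ih =>
      choose n' hn' using ih
      have h0 : ((2 : ℤ) ^ m) ≠ 0 := pow_ne_zero _ two_ne_zero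
      have h1 := key n' (by
        intro x
        have h2 := hn x
        rw [hn' (c x), hn' x] at h2
        have h3 : (2 : ℤ) ^ m * (n' (c x) + n' x) = 0 := by linarith
        have h4 := (mul_eq_zero.mp h3).resolve_left h0
        linarith) (by
        intro g
        have h2 := hrel g
        have h3 : ∑ x, n x * f (g • x) = (2 : ℤ) ^ m * ∑ x, n' x * f (g • x) := by
          rw [Finset.mul_sum]
          refine Finset.sum_congr rfl fun x _ => ?_
          rw [hn' x, mul_assoc]
        rw [h3] at h2
        exact (mul_eq_zero.mp h2).resolve_left h0)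
      intro x
      rw [hn' x, pow_succ]
      exact mul_dvd_mul_left _ (h1 x)
  funext x
  have h1 := key2 (n x).natAbs x
  apply Int.eq_zero_of_abs_lt_dvd h1
  have h2 : (n x).natAbs < 2 ^ (n x).natAbs := Nat.lt_pow_self one_lt_two
  rw [Int.abs_eq_natAbs]
  exact_mod_cast h2

end Pairs

end Pool.Agent.TateTwo
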